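import Pool.Agent.Results.MP_1ad228_nt.RandomOrbits
import Pool.Agent.U569.APL.Lin

/-!
# MP_1ad228_nt: zero-cycles of odd degree on twists of cyclic coverings by integers formed from arbitrary sets

The curves are those of the starting results `ZeroCyclesOfTwistedCoverings` and `RandomOrbits`: for a hyperelliptic curve
`b y ^ 2 = ∏ k, G k (z, w)` over `ℚ`, `G k` the homogenisations of polynomials `g k` of even degrees, pairwise coprime, and
a polynomial `h` coprime to the `g k` (`Admissible`), and an even `m ∣ deg h`,

  `C a : b y ^ 2 = ∏ k, G k (z, w)`, `a x ^ m = H (z, w)`.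

`Good b g h a` (starting file `RandomOrbits`): for all even `m ∣ deg h`, and the quaternion algebras `(G k, e)` of the Brauer
group, every orthogonal adelic zero-cycle of odd degree on `C a` has the values of a persistent class; if the zeros of `h`
are one or two rational numbers, the existence of an orthogonal adelic zero-cycle of odd degree implies the existence of a
rational point; if there are no persistent classes, no adelic zero-cycle of odd degree is orthogonal. So in the last two
cases the Brauer-Manin obstruction is the only one to the existence of zero-cycles of degree one on `C a`.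

Let a sequence (`j = 0, 1, 2, …`) of families of vectors in `ℤ ^ ι`, `|ι| = R`, be given. The vectors of the `j`-th
family are `c₀ + y`, `c₀` an arbitrary integral vector (depending on `j`, of any size) and `y` one of the following vectors
(represented by `0, …, q - 1`):

* `y` in any family of vectors modulo some `q` (depending on `j`), whose nontrivial Fourier coefficients are at most
  `1 / (Z (42 + 3 log q) ^ R)`, where `Z → ∞`, `Z ≤ q`;
* `β(x, z) + u(x) + w(z)` modulo a prime `P → ∞`, where `β : k ^ m × k ^ n → k ^ R` is bilinear, the nontrivial
  combinations of its coordinates have rank at least `ρ`, `x` and `z` are in ARBITRARY sets `E` and `F` with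
  `|E| |F| ≥ P ^ (m + n - ρ + δ)`, `u` and `w` are arbitrary functions (for `δ > 0` fixed);
* the same for `β(x, z) = x z`, `x` and `z` in ARBITRARY subsets of the field of `P ^ R` elements,
  `|E| |F| ≥ P ^ (R + δ)`;
* polynomials in several variables of degree at most `P ^ (δ / 4)`, all nontrivial combinations of which have a monomial
  with at least two variables, plus arbitrary functions of the single variables, on products of ARBITRARY sets of at
  least `P ^ (1 / 2 + δ)` residues;
* polynomials in one variable of degree at most `P ^ (δ / 4)`, no nontrivial combination of which is constant, on any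
  subgroup of the multiplicative group modulo `P` with at least `P ^ (1 / 2 + δ)` elements.

**Theorem.** There are exceptions `E j`, `|E j| = o(size)`, such that for ALL admissible `(b, g, h)` and ALL linear forms
`λ ≠ 0` with integral coefficients, for large `j` and all vectors `c` of the `j`-th family outside of `E j` the integer
`a = λ(c)` is `Good` for `(b, g, h)`; and for large `j` and all `c` outside of `E j` no adelic zero-cycle of odd degree on
the curves `y² = (z² + 51) (z² - 1)`, `a x ^ m = (z² + 1) (z² - 17) (z² + 17)`, `m = 2, 6`, is orthogonal, although these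
curves have points over `ℝ` and over all `ℚ_p` (starting file).

New: the families of integers `a`. The exceptional sets are pronull by the starting results; few members of the families are in such a set by the theorem of the starting
library `N384.VF` on vectors of residues; the estimates of the Fourier coefficients on arbitrary sets are in `U569/APL`.
-/

set_option autoImplicit false

namespace Pool.Agent.Results.MP_1ad228_nt.ArbitrarySets

open Polynomial Filter Pool.Agent.R925.FD Pool.Agent.R925.ZC
open Pool.Agent.N676.OR (countable_poly)
open Pool.Agent.Results.MP_1ad228_nt.ZeroCyclesOfTwistedCoverings (Admissible OddDegree)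
open Pool.Agent.Results.MP_1ad228_nt.RandomOrbits (Good adm_ex)
open Pool.Agent.U569.APL

/-- **Zero-cycles of odd degree on the twists by integers formed from arbitrary sets.** -/
theorem result (ι : Type) [Fintype ι] :
    (∀ (τ : ℕ → Type) (s : ∀ j, Finset (τ j)) (v : ∀ j, τ j → ι → ℤ), FlatFamilies s v →
      ∃ E : ∀ j, Finset (τ j), Small s E ∧
        (∀ (r : ℕ) (b : ℤ) (g : Fin r → ℤ[X]) (h : ℤ[X]), Admissible b g h → ∀ lam : ι → ℤ, lam ≠ 0 →
          Outside s E v fun c => Good b g h (∑ i, lam i * c i)) ∧
        ∀ lam : ι → ℤ, lam ≠ 0 → Outside s E v fun c => ∀ m : ℕ, 0 < m → Even m → m ∣ exh.natDegree →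
          ¬ ∃ Z : AdelicCycle m 1 (∑ i, lam i * c i) exg exh, OddDegree Z ∧ Z.Orthogonal) ∧
    Examples ι := by
  classical
  refine ⟨fun τ s v hs => ?_, examples _⟩
  have hcp := countable_poly
  obtain ⟨E, hE, h1⟩ := flat_linear hs
    (fun D : Σ r : ℕ, ℤ × (Fin r → ℤ[X]) × ℤ[X] => Admissible D.2.1 D.2.2.1 D.2.2.2)
    (fun D a => Good D.2.1 D.2.2.1 D.2.2.2 a)
    (fun D hA lam hlam => Pool.Agent.Results.MP_1ad228_nt.RandomOrbits.result.1 D.1 D.2.1 D.2.2.1 D.2.2.2 hA ι lam hlam)
  have h2 : ∀ (r : ℕ) (b : ℤ) (g : Fin r → ℤ[X]) (h : ℤ[X]), Admissible b g h → ∀ lam : ι → ℤ, lam ≠ 0 →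
      Outside s E v fun c => Good b g h (∑ i, lam i * c i) :=
    fun r b g h hA lam hlam => h1 ⟨r, b, g, h⟩ hA lam hlam
  refine ⟨E, hE, h2, fun lam hlam => ?_⟩
  filter_upwards [h2 2 1 exg exh adm_ex lam hlam] with j hj i hi hi2 m hm0 hm hmh hZ
  exact (hj i hi hi2).2.2 (fun δ hδ => ex_not_zpers δ (hδ.1 0) odd_one) m hm0 hm hmh hZ

end Pool.Agent.Results.MP_1ad228_nt.ArbitrarySets
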