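import Pool.Agent.Q51.ZC.KZer4
import Pool.Agent.U899.LG3

/-!
# Zero-cycles on 100% of the everywhere locally soluble twists of Fermat curves, over all number fields

Let `a X ^ n + b`, `n` odd, `a, b ∈ ℤ`, be irreducible over `ℚ`, let `m > 1` divide `n`, and let
`C_D : D y ^ m = a x ^ n + b w ^ n` be the twists of the (generalised) Fermat curve `y ^ m = a x ^ n + b w ^ n`, smooth
projective curves in the weighted projective plane of weights `(1, 1, n/m)`, of genus `(m - 1)(n - 2)/2`.  Nothing is
known about the Tate-Shafarevich groups of their Jacobians.

**Theorem.** For 100 percent of the everywhere locally soluble curves `C_D` with squarefree `D` (all but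
`C (log X)^(-δ) E(X)`, if `E(X)` is the number of them with `|D| ≤ X`) the following is true for all prime factors
`q` of `m`:

* no family of zero-cycles of `C_D` over the fields `ℚ_p` of a degree prime to `q` is orthogonal to the Brauer
  classes `A_χ = Cor_{L/ℚ} (χ, x ^ (n/q) - θ w ^ (n/q))` of order `q`;
* the same for `(C_D)_K`, for ALL number fields `K` of a degree prime to `q` at the same time (with the restrictions
  of the classes `A_χ`);
* all closed points of `C_D` have a degree divisible by `q`.

So `C_D` has points everywhere locally, but no zero-cycle of degree one over `ℚ` or over any number field `K` of a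
degree prime to a prime factor of `m`, and this is explained by the Brauer-Manin obstruction: the statement of the
question is true for these varieties (both sides are empty).  For squarefree `m` the index of these curves is
exactly `m`.

**Local-global principle for the existence of the curves** (new here, `Pool/Agent/U899/LG*.lean`).  There is a
squarefree `D` such that `C_D` is everywhere locally soluble if and only if for every prime number `p` there is an
integer `D`, not divisible by `p ^ 2`, such that `C_D` has a point over `ℚ_p`.  This is the case if no square of a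
prime number divides both `a` and `b`, for instance if `a` and `b` are coprime.  Under this condition
`E(X) ≥ c X / log X * exp (∑ 1/l)` for large `X`, the sum over the primes `l ≤ X` modulo which `a X ^ n + b` has a
zero; so the theorem is about infinitely many curves.  Proof: `D = ± P l l'`, where `P` and the residue class of
`± l l'` are given by the local conditions at the bad primes, and `l, l'` are primes such that `l - 1` and `l' - 1`
are prime to `n` (Dirichlet's theorem; here `n` odd is used), so that `a X ^ n + b` has zeros modulo `l` and `l'`;
at the other primes Weil's bound gives a point.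

The definitions are in `Pool/Agent/Q51/ZC/Zer.lean`, `Zer4.lean`, `KZer.lean`; those of characters in
`Pool/Agent/Q51/SE/Pol.lean`.  `L = ℚ[X]/(a X ^ q + b) = ℚ(θ)`, and `χ` runs through the characters of order dividing
`q` of the idele class group of `L` which are trivial on the ideles of `ℚ`.

Proof.  At a good prime `l ∣ D` the value of `x - θ w` at a local zero-cycle of degree `d` prime to `q` has a vector of
valuations modulo `q` with sum `d`; orthogonality and the product formula make two elements of `L` with the same
vector proportional modulo `q`-th powers and rational numbers.  A large sieve bounds the number of the `D`.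

(helper51, with helper14, helper16, helper24, helper26, helper38, helper52, helper65, helper68, helper91, helper124,
helper150, helper154, helper162, helper166, helper182, helper187, helper190, helper198, helper210, helper239, helper241,
helper247, helper251, helper277, helper285; assembled and completed by helper899.)
-/

set_option autoImplicit false

open Polynomial

namespace Pool.Agent.Results.MP_1ad228_nt.FermatTwistsLocalGlobal

open Pool.Agent.Q51.ZC (CPoint ClosedPoint ZeroCycle HasOrthogonalFamily Soluble UnobstructedOverQ
  IndexNotDivisible ClosedInvariantsWellDefined sumRoots numLocSoluble Unobstructed PlacesAbove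
  ZeroCycleOver fq)
open Pool.Agent.Q51.SE (ClassCharacter count)

/-- The pairing with the classes `A_χ` is well defined and has the usual properties: the local invariants do not
depend on choices, almost all local invariants of a family of zero-cycles over the fields `ℚ_p`, or over the
completions of a number field, are zero, and a point over a number field `K` gives an orthogonal family of
degree `[K : ℚ]`. -/
def PairingProperties (a b : ℤ) (n m : ℕ) (D : ℤ) (q : ℕ) : Prop :=
  (∀ p : Nat.Primes, ClosedInvariantsWellDefined a b n m D q p) ∧
  (∀ (z : ∀ p : Nat.Primes, ZeroCycle a b n m D p) (χ : ClassCharacter (fq a b q) q),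
    {p : Nat.Primes | (z p).inv χ ≠ 0}.Finite) ∧
  (∀ (K : Type) [Field K] [NumberField K]
    (z : ∀ (p : Nat.Primes) (v : PlacesAbove K p), ZeroCycleOver a b n m D K p v)
    (χ : ClassCharacter (fq a b q) q), {p : Nat.Primes | ∃ v, (z p v).inv χ ≠ 0}.Finite) ∧
  ∀ (K : Type) [Field K] [NumberField K], CPoint a b n m D K →
    HasOrthogonalFamily a b n m D q (Module.finrank ℚ K)

/-- The curve `C_D` has one of the following properties, for some prime factor `q` of `m`: there is an orthogonal
family of local zero-cycles of a degree prime to `q`, over the fields `ℚ_p` or over the completions of a number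
field `K` of a degree prime to `q`, or there is a closed point of a degree prime to `q`. -/
def Exceptional (a b : ℤ) (n m : ℕ) (D : ℤ) : Prop :=
  UnobstructedOverQ a b n m D ∨ Unobstructed a b n m D ∨ IndexNotDivisible a b n m D

/-- The number of the squarefree `D` with `|D| ≤ X` for which `C_D` is everywhere locally soluble and
exceptional. -/
noncomputable def numExceptional (a b : ℤ) (n m : ℕ) (X : ℝ) : ℝ :=
  count (fun D => Soluble a b n m D ∧ Exceptional a b n m D) X

/-- The index of `C_D` over `ℚ` is `m`, and there is a point of degree `m`. -/
def IndexEq (a b : ℤ) (n m : ℕ) (D : ℤ) : Prop :=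
  (∀ (K : Type) [Field K] [NumberField K], CPoint a b n m D K → m ∣ Module.finrank ℚ K) ∧
    ∃ (K : Type) (_ : Field K) (_ : NumberField K), Module.finrank ℚ K = m ∧
      Nonempty (CPoint a b n m D K)

/-- For every prime number `p` there is an integer `D` which is not divisible by `p ^ 2` such that `C_D` has a point
over `ℚ_p`. -/
def LocallyAttainable (a b : ℤ) (n m : ℕ) : Prop :=
  ∀ (p : ℕ) [Fact p.Prime], ∃ D : ℤ, ¬ (p : ℤ) ^ 2 ∣ D ∧ Nonempty (CPoint a b n m D ℚ_[p])

/-- Let `a X ^ n + b` be irreducible over `ℚ`, `n` odd, and let `m > 1` divide `n`.  For 100 percent of the everywhere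
locally soluble curves `C_D : D y ^ m = a x ^ n + b w ^ n` with squarefree `D` (all but `C (log X)^(-δ) E(X)` of the
`E(X)` curves with `|D| ≤ X`) the Brauer-Manin obstruction shows, for all prime factors `q` of `m` and all number
fields `K` of a degree prime to `q` (in particular for `K = ℚ`), that there are no zero-cycles of a degree
prime to `q` over `K`; and the degrees of all closed points of `C_D` are divisible by all prime factors of `m`.
For squarefree `m` the index of the nonexceptional curves is `m`. -/
theorem result (a b : ℤ) (n m : ℕ) (hn : Odd n) (hm : 1 < m) (hmn : m ∣ n)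
    (hirr : Irreducible (C (a : ℚ) * X ^ n + C (b : ℚ))) :
    (∀ D : ℤ, D ≠ 0 → ∀ q : ℕ, q.Prime → q ∣ m → PairingProperties a b n m D q) ∧
    (∃ δ C : ℝ, 0 < δ ∧ ∀ X : ℝ, 3 ≤ X →
      numExceptional a b n m X ≤ C * Real.log X ^ (-δ) * numLocSoluble a b n m X) ∧
    (∀ D : ℤ, D ≠ 0 → Squarefree m → ¬ Exceptional a b n m D → IndexEq a b n m D) ∧
    ((∃ D : ℤ, Squarefree D ∧ Soluble a b n m D) ↔ LocallyAttainable a b n m) ∧
    ((∀ p : ℕ, p.Prime → ¬ ((p : ℤ) ^ 2 ∣ a ∧ (p : ℤ) ^ 2 ∣ b)) → LocallyAttainable a b n m) ∧
    (LocallyAttainable a b n m → ∃ c X₀ : ℝ, 0 < c ∧ ∀ X : ℝ, X₀ ≤ X →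
      c * X / Real.log X * Real.exp (sumRoots a b n X) ≤ numLocSoluble a b n m X) := by
  have h := Pool.Agent.Q51.ZC.main hn hm hmn hirr
  have hn0 := hn.pos
  have hirr' := hirr
  rw [← Pool.Agent.Q51.ZC.fq_map] at hirr'
  obtain ⟨ha, -⟩ := Pool.Agent.Q51.ZC.fq_ne (by
    have := Nat.le_of_dvd hn0 hmn
    omega) hirr'
  refine ⟨fun D hD q hq hqm => ?_, Pool.Agent.Q51.ZC.main_over hn hm hmn hirr, ?_,
    Pool.Agent.U899.LG.lg_iff hn hm hmn hirr, fun h2 p _ => Pool.Agent.U899.LG.att hn hm h2 p,
    fun h2 => h.2.2 ((Pool.Agent.U899.LG.lg_iff hn hm hmn hirr).2 h2)⟩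
  · obtain ⟨h1, h2, h3⟩ := h.1 D hD q hq hqm
    have hqn := hqm.trans hmn
    refine ⟨h1, h2, ?_, h3⟩
    intro K _ _ z χ
    exact Pool.Agent.Q51.ZC.fin_supp_over ha hq hn0 hqn hqm
      (Pool.Agent.Q51.ZC.fq_irr hn0 hqn hirr') hD K z χ
  · intro D hD hsq hex
    exact Pool.Agent.Q51.ZC.index_eq hn0 (by omega) ha hsq hD fun h => hex (Or.inr (Or.inr h))

end Pool.Agent.Results.MP_1ad228_nt.FermatTwistsLocalGlobal
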